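import Pool.Agent.Y45.MON.StmV
import Pool.Agent.TH54.BU.Case1
import Pool.Agent.TH54.BU.Case2

/-!
# Project MON (helper45), job V7: `case1` and `case2` with variable exponents
-/

set_option autoImplicit false

namespace Pool.Agent.Y182.MON

open Pool.Agent.TH54.BU Pool.Agent.Y45.MON

/-- two consecutive big edges -/
theorem case1 (hT : TransferStmt) (hRg : RigidStmt) : Case1Stmt := by
  intro G _ H c θ T L K B p L1 Θ n E M _ Q S γ l hγ hQγ hang K' k1 k2 hk1 hk hk2 hbig1 hbig2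
    hsmall hn
  classical
  set W : Set (G ⧸ M) := {g : G ⧸ M | ∀ j, k1 - (K' + 2) ≤ j → j ≤ k2 + 1 + (K' + 2) →
      Q.d (γ j : G ⧸ M) (g * γ j) ≤ K'} with hW
  -- the big edges lie on lines
  have line : ∀ k, k < l → 2 * c + θ + 10 * Θ + 10 ≤ H.d (γ k) (γ (k + 1)) →
      ∃ (i : L.ι), (γ k)⁻¹ * γ (k + 1) ∈ Subgroup.zpowers (L.x i) := by
    intro k hkl hb
    rcases (S.cone.le_one ((γ k)⁻¹ * γ (k + 1))).1 (hγ.1 k hkl) with h | ⟨i, t, ht⟩
    · exfalso
      unfold GH.d at hb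
      omega
    · exact ⟨i, t, ht.symm⟩
  obtain ⟨i1, hi1⟩ := line k1 (by omega) hbig1
  obtain ⟨i2, hi2⟩ := line k2 (by omega) hbig2
  have hn' : ∀ i, (4 * K' + 20) * (T * (2 * c + θ + 10 * Θ + 10) + 1) + 24 * L.thr ≤ n i := by
    intro i
    refine le_trans ?_ (hn i)
    gcongr <;> omega
  -- transfer at the two edges
  have tr1 : ∀ g ∈ W, ∃ j, (j ≤ k1 + K' + 1 ∧ k1 ≤ j + K' + 1) ∧ ∃ g' : G, (g' : G ⧸ M) = g ∧
      (γ k1)⁻¹ * g' * γ j ∈ Subgroup.zpowers (L.x i1) := by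
    intro g hg
    obtain ⟨j, h1, h2, h3⟩ := hT G H c θ T L n M S.fil E Θ S.cone Q S.le S.lift γ l hγ hQγ hang
      K' k1 hk1 (by omega) hbig1 i1 hi1 hn' g (hg _ le_rfl (by omega))
      (hg _ (by omega) (by omega))
    exact ⟨j, ⟨h1, h2⟩, h3⟩
  have tr2 : ∀ g ∈ W, ∃ j, (j ≤ k2 + K' + 1 ∧ k2 ≤ j + K' + 1) ∧ ∃ g' : G, (g' : G ⧸ M) = g ∧
      (γ k2)⁻¹ * g' * γ j ∈ Subgroup.zpowers (L.x i2) := by
    intro g hg
    obtain ⟨j, h1, h2, h3⟩ := hT G H c θ T L n M S.fil E Θ S.cone Q S.le S.lift γ l hγ hQγ hang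
      K' k2 (show K' + 2 ≤ k2 by omega)
      (by omega) hbig2 i2 hi2 hn' g (hg _ (by omega) (by omega)) (hg _ (by omega) (by omega))
    exact ⟨j, ⟨h1, h2⟩, h3⟩
  choose! J1 hJ1 g1 hg1 hz1 using tr1
  choose! J2 hJ2 g2 hg2 hz2 using tr2
  -- the projections of the middle piece
  have hD : ∀ (i : L.ι) (u : G), L.D i u (γ (k1 + 1)) (γ k2) ≤
      2 * c + θ + 10 * Θ + 10 + 2 * Θ := by
    intro i u
    exact L.cs1_proj S.cone hγ (show k1 + 1 ≤ k2 by omega) (by omega)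
      (fun k h1 h2 => hsmall k (by omega) h2) i u
  have hne : i1 = i2 → (γ (k1 + 1))⁻¹ * γ k2 ∉ Subgroup.zpowers (L.x i1) := by
    intro h12 hmem
    subst h12
    have h3 := (Subgroup.zpowers (L.x i1)).mul_mem
      ((Subgroup.zpowers (L.x i1)).mul_mem hi1 hmem) hi2
    rw [show (γ k1)⁻¹ * γ (k1 + 1) * ((γ (k1 + 1))⁻¹ * γ k2) * ((γ k2)⁻¹ * γ (k2 + 1)) =
      (γ k1)⁻¹ * γ (k2 + 1) by group] at h3
    have h4 := L.cs1_on_E S.cone h3
    have h5 := cs1_geod hγ (show k1 ≤ k2 + 1 by omega) (by omega)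
    omega
  have hn2 : ∀ i, 4 * (T * (2 * c + θ + 10 * Θ + 10 + 2 * Θ + θ + 1) + 1) + 24 * L.thr +
      T * (2 * c + 1) ≤ n i := by
    intro i
    refine le_trans ?_ (hn i)
    have h1 : T * (2 * c + θ + 10 * Θ + 10 + 2 * Θ + θ + 1) ≤
        T * (2 * c + 2 * θ + 20 * Θ + 20) := Nat.mul_le_mul_left _ (by omega)
    have h2 : T * (2 * c + 1) ≤ T * (2 * c + 2 * θ + 20 * Θ + 20) :=
      Nat.mul_le_mul_left _ (by omega)
    have h3 : 20 * (T * (2 * c + 2 * θ + 20 * Θ + 20) + 1) ≤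
        (4 * K' + 20) * (T * (2 * c + 2 * θ + 20 * Θ + 20) + 1) :=
      Nat.mul_le_mul_right _ (by omega)
    omega
  -- elements with the same data are equal
  have inj : Set.InjOn (fun g => (J1 g, J2 g)) W := by
    intro g hg h hh heq
    simp only [Prod.mk.injEq] at heq
    obtain ⟨e1, e2⟩ := heq
    have a1 := hz1 g hg
    have b1 := hz1 h hh
    have a2 := hz2 g hg
    have b2 := hz2 h hh
    rw [← e1] at b1
    rw [← e2] at b2
    have m1 := (Subgroup.zpowers (L.x i1)).mul_mem b1 ((Subgroup.zpowers (L.x i1)).inv_mem a1)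
    have m2 := (Subgroup.zpowers (L.x i2)).mul_mem b2 ((Subgroup.zpowers (L.x i2)).inv_mem a2)
    rw [show (γ k1)⁻¹ * g1 h * γ (J1 g) * ((γ k1)⁻¹ * g1 g * γ (J1 g))⁻¹ =
      (γ k1)⁻¹ * (g1 h * (g1 g)⁻¹) * γ k1 by group] at m1
    rw [show (γ k2)⁻¹ * g2 h * γ (J2 g) * ((γ k2)⁻¹ * g2 g * γ (J2 g))⁻¹ =
      (γ k2)⁻¹ * (g2 h * (g2 g)⁻¹) * γ k2 by group] at m2
    obtain ⟨r1, hr1⟩ := m1
    obtain ⟨r2, hr2⟩ := m2
    obtain ⟨t, ht⟩ := hi1
    simp only at hr1 hr2 ht
    have q1 : L.rt i1 (γ (k1 + 1)) r1 = g1 h * (g1 g)⁻¹ := by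
      have hγ1 : γ (k1 + 1) = γ k1 * L.x i1 ^ t := by rw [ht]; group
      have hgg : g1 h * (g1 g)⁻¹ = γ k1 * L.x i1 ^ r1 * (γ k1)⁻¹ := by rw [hr1]; group
      rw [hgg]
      unfold LS.rt
      rw [hγ1]
      rw [show γ k1 * L.x i1 ^ t * L.x i1 ^ r1 * (γ k1 * L.x i1 ^ t)⁻¹ =
        γ k1 * (L.x i1 ^ t * L.x i1 ^ r1 * (L.x i1 ^ t)⁻¹) * (γ k1)⁻¹ by group]
      congr 2
      rw [← zpow_neg, ← zpow_add, ← zpow_add]
      congr 1
      ring
    have q2 : L.rt i2 (γ k2) r2 = g2 h * (g2 g)⁻¹ := by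
      unfold LS.rt
      rw [hr2]
      group
    have hq : (L.rt i1 (γ (k1 + 1)) r1 : G ⧸ M) = L.rt i2 (γ k2) r2 := by
      rw [q1, q2]
      rw [QuotientGroup.mk_mul, QuotientGroup.mk_mul, QuotientGroup.mk_inv,
        QuotientGroup.mk_inv, hg1 g hg, hg1 h hh, hg2 g hg, hg2 h hh]
    have hone := hRg G H c θ T L n M S.fil i1 i2 (γ (k1 + 1)) (γ k2) hne _ hD hn2 r1 r2 hq
    rw [q1, QuotientGroup.mk_mul, QuotientGroup.mk_inv, hg1 g hg, hg1 h hh] at hone
    exact (mul_inv_eq_one.1 hone).symm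
  -- count
  set F : Finset (ℕ × ℕ) := Finset.Icc (k1 - (K' + 1)) (k1 + K' + 1) ×ˢ
    Finset.Icc (k2 - (K' + 1)) (k2 + K' + 1) with hF
  have maps : Set.MapsTo (fun g => (J1 g, J2 g)) W (F : Set (ℕ × ℕ)) := by
    intro g hg
    have h1 := hJ1 g hg
    have h2 := hJ2 g hg
    simp only [hF, Finset.coe_product, Finset.coe_Icc, Set.mem_prod, Set.mem_Icc]
    omega
  have hcard : F.card = (2 * K' + 3) ^ 2 := by
    rw [hF, Finset.card_product, Nat.card_Icc, Nat.card_Icc, sq]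
    congr 1 <;> omega
  refine ⟨Set.Finite.of_injOn maps inj F.finite_toSet, ?_⟩
  calc W.ncard ≤ (F : Set (ℕ × ℕ)).ncard :=
        Set.ncard_le_ncard_of_injOn _ maps inj F.finite_toSet
    _ = (2 * K' + 3) ^ 2 := by rw [Set.ncard_coe_finset, hcard]

/-- a long window without big edges -/
theorem case2 (hLW : LiftWindowStmt) (hSv : SurvStmt) : Case2Stmt := by
  intro G _ H c θ T L K B p L1 Θ n E M _ Q S A K' R hR P1 P2 hD hfar hn
  -- lifts
  have hn1 : ∀ i, 4 * (T * (A + Θ + 1) + 1) + 24 * L.thr + T * (2 * c + 1) ≤ n i := by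
    intro i
    have := hn i
    omega
  have hlift : ∀ g : G ⧸ M, Q.d (P1 : G ⧸ M) (g * P1) ≤ K' → Q.d (P2 : G ⧸ M) (g * P2) ≤ K' →
      ∃ g' : G, (g' : G ⧸ M) = g ∧ H.d P1 (g' * P1) ≤ R ∧ H.d P2 (g' * P2) ≤ R := by
    intro g h1 h2
    rw [hR]
    exact hLW G H c θ T L n M S.fil E Θ S.cone Q S.lift A K' P1 P2 hD (by omega) hn1 g h1 h2
  have hmix : H.Mix K B 0 := fun q hq =>
    ⟨fun g hg => (S.acy q hq g hg).1, Or.inl fun g hg h hh => (S.acy q hq g hg).2 h hh⟩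
  have hacy := H.mixA S.hK S.stab hmix R
  have hEH : E.d P1 P2 ≤ H.d P1 P2 := S.cone.le _
  have hlong : B + 8 * (0 + 3) * R + 100 * H.D + 100 ≤ H.len (P1⁻¹ * P2) := by
    change _ ≤ H.d P1 P2
    omega
  refine ⟨?_, ?_⟩
  · intro g hg1 hg2 hfin
    obtain ⟨g', rfl, h1, h2⟩ := hlift g hg1 hg2
    have hm := c2_mem_SD H h1 h2
    have ht := (hacy _ hlong _ hm).1
    by_cases hf : IsOfFinOrder g'
    · have hf1 : IsOfFinOrder (P1⁻¹ * g' * P1) := by
        apply c2_finOrder_conj (v := P1⁻¹)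
        rw [show P1⁻¹⁻¹ * (P1⁻¹ * g' * P1) * P1⁻¹ = g' by group]
        exact hf
      have h3 := ht hf1
      have h4 : g' = 1 := by
        have : P1⁻¹ * g' * P1 = P1⁻¹ * 1 * P1 := by rw [h3]; group
        exact mul_left_cancel (mul_right_cancel this)
      rw [h4]; rfl
    · exfalso
      by_cases hs : L.Short g'
      · obtain ⟨i, u, k, hk⟩ := hs
        have hk0 : k ≠ 0 := by
          rintro rfl
          apply hf
          rw [hk, zpow_zero, mul_one, mul_inv_cancel]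
          exact IsOfFinOrder.one
        have e : g' = L.rt i u k := hk
        rw [e] at h1 h2
        have t1 := L.tube hk0 h1
        have t2 := L.tube hk0 h2
        have e1 : E.d P1 (L.pr i u P1) ≤ H.d P1 (L.pr i u P1) := S.cone.le _
        have e2 : E.d P2 (L.pr i u P2) ≤ H.d P2 (L.pr i u P2) := S.cone.le _
        have e3 : E.d (L.pr i u P1) (L.pr i u P2) ≤ 1 := by
          refine (S.cone.le_one _).2 (Or.inr ⟨i, L.κ i (u⁻¹ * P2) - L.κ i (u⁻¹ * P1), ?_⟩)
          unfold LS.pr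
          rw [zpow_sub]
          have hc : L.x i ^ L.κ i (u⁻¹ * P2) * (L.x i ^ L.κ i (u⁻¹ * P1))⁻¹ =
              (L.x i ^ L.κ i (u⁻¹ * P1))⁻¹ * L.x i ^ L.κ i (u⁻¹ * P2) := by
            rw [← zpow_neg, ← zpow_add, ← zpow_add, add_comm]
          rw [hc]
          group
        have t3 := E.d_tri P1 (L.pr i u P1) P2
        have t4 := E.d_tri (L.pr i u P1) (L.pr i u P2) P2
        rw [E.d_comm (L.pr i u P2) P2] at t4
        have e4 : 20 * (H.D + c + 1) * (Nat.clog 2 T + 10 * (H.D + c + 1)) =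
            2 * (10 * (H.D + c + 1) * (Nat.clog 2 T + 10 * (H.D + c + 1))) := by ring
        omega
      · -- a conjugate of minimal length
        obtain ⟨v, hv⟩ : ∃ v : G, ∀ w : G, H.len (v⁻¹ * g' * v) ≤ H.len (w⁻¹ * g' * w) :=
          ⟨Function.argmin (fun w : G => H.len (w⁻¹ * g' * w)),
            fun w => Function.argmin_le (fun w : G => H.len (w⁻¹ * g' * w)) w⟩
        set z : G := v⁻¹ * g' * v with hz
        have hcm : H.CMin z := by
          intro u
          have := hv (v * u)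
          rwa [show (v * u)⁻¹ * g' * (v * u) = u⁻¹ * z * u by rw [hz]; group] at this
        have hns : ¬ L.Short z := by
          rintro ⟨i, u, k, hk⟩
          apply hs
          refine ⟨i, v * u, k, ?_⟩
          have : g' = v * z * v⁻¹ := by rw [hz]; group
          rw [this, hk]
          group
        have hzf : ¬ IsOfFinOrder z := fun h => hf (c2_finOrder_conj h)
        have hzR : H.len z ≤ R := by
          have := hv P1
          rw [show P1⁻¹ * g' * P1 = P1⁻¹ * (g' * P1) by group] at this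
          exact this.trans h1
        have hl : 4 * H.D + 4 ≤ H.len z := by
          by_contra hlt
          apply hns
          apply S.short z hzf
          have := S.hL1
          omega
        have hang : ∀ (i : L.ι) (u : G) (a b : ℤ),
            |L.s i u (z ^ a) (z ^ b)| + T * Θ + 12 * L.thr < n i := by
          intro i u a b
          have hni := hn i
          have o1 := L.ovz hcm hl hns i u a b
          have o2 := c2_abs_s L i u (z ^ a) (z ^ b)
          have o3 : T * L.D i u (z ^ a) (z ^ b) + T * Θ ≤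
              T * (R + θ + Θ + 1000 * (H.D + c + θ + 1)) := by
            rw [← Nat.mul_add]
            apply Nat.mul_le_mul_left
            omega
          have o4 : 4 * T * (R + θ + Θ + 1000 * (H.D + c + θ + 1)) =
            4 * (T * (R + θ + Θ + 1000 * (H.D + c + θ + 1))) := by ring
          have o5 : |L.s i u (z ^ a) (z ^ b)| ≤ (T * L.D i u (z ^ a) (z ^ b) : ℕ) := o2
          have o6 : T * L.D i u (z ^ a) (z ^ b) + T * Θ + 12 * L.thr < n i := by omega
          have o7 : (T * L.D i u (z ^ a) (z ^ b) : ℕ) + (T : ℤ) * Θ + 12 * L.thr < n i := by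
            exact_mod_cast o6
          linarith
        have hsurv := hSv G H c θ T L n M S.fil E Θ S.cone
          (fun i => by have := hn i; omega) Q S.lift z hcm hl hns hang
        obtain ⟨k, hk, hk1⟩ := isOfFinOrder_iff_pow_eq_one.1 hfin
        have h5 := hsurv k
        have h6 : ((z : G) : G ⧸ M) ^ k = 1 := by
          have e : ((z : G) : G ⧸ M) = ((v : G) : G ⧸ M)⁻¹ * ((g' : G) : G ⧸ M) *
              (((v : G) : G ⧸ M)⁻¹)⁻¹ := by
            rw [hz, inv_inv]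
            rfl
          rw [e, conj_pow, hk1]
          group
        rw [h6, Q.len_one, mul_zero] at h5
        omega
  · intro g h hg1 hg2 hh1 hh2
    obtain ⟨g', rfl, h1, h2⟩ := hlift g hg1 hg2
    obtain ⟨h', rfl, h3, h4⟩ := hlift h hh1 hh2
    have hm := c2_mem_SD H h1 h2
    have hm' := c2_mem_SD H h3 h4
    have hc := (hacy _ hlong _ hm).2 _ hm'
    have e1 : P1⁻¹ * g' * P1 * (P1⁻¹ * h' * P1) = P1⁻¹ * (g' * h') * P1 := by group
    have e2 : P1⁻¹ * h' * P1 * (P1⁻¹ * g' * P1) = P1⁻¹ * (h' * g') * P1 := by group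
    rw [e1, e2] at hc
    have e3 : g' * h' = h' * g' := mul_left_cancel (mul_right_cancel hc)
    rw [← QuotientGroup.mk_mul, ← QuotientGroup.mk_mul, e3]

end Pool.Agent.Y182.MON
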